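import Pool.Agent.Q121.HY.Stm

/-!
# Project HY (helper121): jobs CHN and PAR
-/

set_option autoImplicit false

namespace Pool.Agent.Q47.HY

open Q121.HY

theorem rot_add7 {c : ℝ} (hc : Cub c) (i : ℕ) (v : V) : ap c (rot (i + 7)) v = ap c (rot i) v := by
  rw [← ap_rot, ap_rot7 c hc]

theorem rot1 (c : ℝ) (v : V) : ap c (rot 1) v = Rv c v := rfl

theorem ap_rj (c : ℝ) (i : ℕ) (v : V) : ap c (rot i ++ [false]) v = ap c (rot i) (Jv c v) := by
  rw [ap_append]
  rfl

theorem JRJ {c : ℝ} (hc : Cub c) (u : V) :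
    Jv c (Rv c (Jv c (Rv c u))) = ap c (rot 6) (Jv c u) := by
  have h := RJ3 c (Jv c u)
  rw [Jv_Jv] at h
  have h2 : ap c (rot 6) (Rv c (Jv c (Rv c (Jv c (Rv c u))))) = Jv c (Rv c (Jv c (Rv c u))) := by
    rw [← rot1 c (Jv c (Rv c (Jv c (Rv c u)))), ap_rot]
    exact ap_rot7 c hc _
  rw [← h2, h]

theorem JR6 {c : ℝ} (hc : Cub c) (v : V) :
    Jv c (ap c (rot 6) (Jv c (ap c (rot 6) v))) = Rv c (Jv c v) := by
  have h := JRJ hc (ap c (rot 6) (Jv c (ap c (rot 6) v)))
  have h1 : Rv c (ap c (rot 6) (Jv c (ap c (rot 6) v))) = Jv c (ap c (rot 6) v) := by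
    rw [← rot1 c, ap_rot]
    exact ap_rot7 c hc _
  have h2 : Rv c (ap c (rot 6) v) = v := by
    rw [← rot1 c, ap_rot]
    exact ap_rot7 c hc _
  rw [h1, Jv_Jv, h2] at h
  rw [h, ← rot1 c, ap_rot]
  exact (ap_rot7 c hc _).symm

/-- consecutive children -/
theorem sib_kids {c : ℝ} (hc : Cub c) (w : List Bool) (t : Bool) (i : ℕ) :
    Sib c (t, w ++ (rot i ++ [false])) (true, w ++ (rot (i + 1) ++ [false])) := by
  intro v
  show ap c (w ++ (rot (i + 1) ++ [false])) v =
    ap c (w ++ (rot i ++ [false])) (ap c (rot 6 ++ (false :: rot 6)) v)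
  rw [ap_append c w, ap_append c w, ap_rj, ap_rj]
  congr 1
  have h1 : ap c (rot 6 ++ (false :: rot 6)) v = ap c (rot 6) (Jv c (ap c (rot 6) v)) := by
    rw [ap_append]
    rfl
  rw [h1, JR6 hc, ← rot1 c (Jv c v), ap_rot]

theorem sib_step {c : ℝ} (hc : Cub c) {n n' : Node} (h : Sib c n n') :
    Sib c (true, n.2 ++ (rot 4 ++ [false])) (false, n'.2 ++ (rot (dprev n'.1 + 1) ++ [false])) := by
  intro v
  show ap c (n'.2 ++ (rot (dprev n'.1 + 1) ++ [false])) v =
    ap c (n.2 ++ (rot 4 ++ [false])) (ap c (rot 6 ++ (false :: rot 5)) v)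
  rw [ap_append c n'.2, ap_append c n.2, ap_rj, ap_rj, h]
  congr 1
  have h1 : ap c (rot 6 ++ (false :: rot 5)) v = ap c (rot 6) (Jv c (ap c (rot 5) v)) := by
    rw [ap_append]
    rfl
  have h2 : ∀ z : V, ap c (rot 6 ++ (false :: rot (7 - dprev n'.1))) (ap c (rot (dprev n'.1 + 1)) z) =
      ap c (rot 6) (Jv c (Rv c z)) := by
    intro z
    rw [ap_append]
    show ap c (rot 6) (Jv c (ap c (rot (7 - dprev n'.1)) (ap c (rot (dprev n'.1 + 1)) z))) = _
    rw [ap_rot]
    have h3 : 7 - dprev n'.1 + (dprev n'.1 + 1) = 1 + 7 := by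
      unfold dprev
      split_ifs <;> rfl
    rw [h3, rot_add7 hc, rot1]
  rw [h2, h1]
  obtain ⟨u, hu⟩ : ∃ u, u = ap c (rot 6) v := ⟨_, rfl⟩
  have hv : v = Rv c u := by
    rw [hu, ← rot1 c, ap_rot]
    exact (ap_rot7 c hc _).symm
  have h5 : ap c (rot 5) v = ap c (rot 6) u := by
    rw [hv, ← rot1 c u, ap_rot]
  rw [h5, JR6 hc, hv, JRJ hc, ← rot1 c (Jv c u), ap_rot, ap_rot]
  exact rot_add7 hc 5 _

theorem kids_ne (n : Node) : kids n ≠ [] := by
  unfold kids
  split_ifs <;> simp

theorem kids_head (n : Node) : (kids n).head? = some (false, n.2 ++ (rot (dprev n.1 + 1) ++ [false])) := by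
  unfold kids dprev
  split_ifs <;> rfl

theorem kids_last (n : Node) : (kids n).getLast? = some (true, n.2 ++ (rot 4 ++ [false])) := by
  unfold kids
  split_ifs <;> rfl

theorem kids_chain {c : ℝ} (hc : Cub c) (n : Node) : (kids n).IsChain (Sib c) := by
  unfold kids
  split_ifs
  · exact List.IsChain.cons_cons (sib_kids hc _ _ 2) (List.IsChain.cons_cons (sib_kids hc _ _ 3)
      (List.IsChain.singleton _))
  · exact List.IsChain.cons_cons (sib_kids hc _ _ 3) (List.IsChain.singleton _)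

theorem chain_flatMap {c : ℝ} (hc : Cub c) : ∀ l : List Node, l.IsChain (Sib c) →
    (l.flatMap kids).IsChain (Sib c)
  | [], _ => by simp
  | [a], _ => by simpa using kids_chain hc a
  | a :: b :: l, h => by
    rw [List.flatMap_cons]
    have h1 := List.isChain_cons_cons.1 h
    refine List.IsChain.append (kids_chain hc a) (chain_flatMap hc (b :: l) h1.2) ?_
    intro x hx y hy
    rw [kids_last] at hx
    rw [List.flatMap_cons, List.head?_append_of_ne_nil _ (kids_ne b), kids_head] at hy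
    rw [Option.mem_some_iff] at hx hy
    rw [← hx, ← hy]
    exact sib_step hc h1.1

theorem lay_ne (k : ℕ) : lay k ≠ [] := by
  induction k with
  | zero => simp [lay]
  | succ k ih =>
    have e : lay (k + 1) = (lay k).flatMap kids := rfl
    rw [e]
    intro h
    obtain ⟨a, l, hal⟩ := List.exists_cons_of_ne_nil ih
    rw [hal, List.flatMap_cons] at h
    exact kids_ne a (List.append_eq_nil_iff.1 h).1

theorem chn : S_Chn := by
  intro c hc k
  induction k with
  | zero =>
    have hs : ∀ i : ℕ, Sib c (true, rot i ++ [false]) (true, rot (i + 1) ++ [false]) :=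
      fun i => sib_kids hc [] true i
    have hl : lay 0 = [(true, rot 0 ++ [false]), (true, rot 1 ++ [false]), (true, rot 2 ++ [false]),
      (true, rot 3 ++ [false]), (true, rot 4 ++ [false]), (true, rot 5 ++ [false]),
      (true, rot 6 ++ [false])] := rfl
    rw [hl]
    refine ⟨?_, ?_⟩
    · exact List.IsChain.cons_cons (hs 0) (List.IsChain.cons_cons (hs 1) (List.IsChain.cons_cons (hs 2)
        (List.IsChain.cons_cons (hs 3) (List.IsChain.cons_cons (hs 4) (List.IsChain.cons_cons (hs 5)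
        (List.IsChain.singleton _))))))
    · intro a ha b hb
      have ha' : (true, rot 6 ++ [false]) = a := Option.some.inj ha
      have hb' : (true, rot 0 ++ [false]) = b := Option.some.inj hb
      rw [← ha', ← hb']
      intro v
      have h1 := hs 6 v
      have h2 : ap c (rot 7 ++ [false]) v = ap c (rot 0 ++ [false]) v := by
        rw [ap_rj, ap_rj, ap_rot7 c hc]
        rfl
      exact h2.symm.trans h1
  | succ k ih =>
    have e : lay (k + 1) = (lay k).flatMap kids := rfl
    rw [e]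
    refine ⟨chain_flatMap hc _ ih.1, ?_⟩
    intro a ha b hb
    obtain ⟨x, l, hxl⟩ := List.exists_cons_of_ne_nil (lay_ne k)
    obtain ⟨l', y, hyl⟩ := List.eq_nil_or_concat'  (lay k) |>.resolve_left (lay_ne k)
    have h1 := ih.2 y (by rw [hyl]; simp) x (by rw [hxl]; simp)
    rw [hyl, List.flatMap_append, List.flatMap_singleton, List.getLast?_append_of_ne_nil _ (kids_ne y),
      kids_last] at ha
    rw [hxl, List.flatMap_cons, List.head?_append_of_ne_nil _ (kids_ne x), kids_head] at hb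
    rw [Option.mem_some_iff] at ha hb
    rw [← ha, ← hb]
    exact sib_step hc h1

/-- the cyclic predecessor -/
theorem exists_pred {c : ℝ} (hc : Cub c) {k : ℕ} {n : Node} (hn : n ∈ lay k) :
    ∃ m ∈ lay k, Sib c m n := by
  obtain ⟨h1, h2⟩ := chn c hc k
  obtain ⟨i, hi, rfl⟩ := List.getElem_of_mem hn
  rcases Nat.eq_zero_or_pos i with rfl | hpos
  · refine ⟨(lay k).getLast (lay_ne k), List.getLast_mem _, ?_⟩
    refine h2 _ (by rw [List.getLast?_eq_getLast_of_ne_nil (lay_ne k)]; rfl) _ ?_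
    rw [List.head?_eq_getElem?, List.getElem?_eq_getElem hi]
    rfl
  · obtain ⟨j, rfl⟩ : ∃ j, i = j + 1 := ⟨i - 1, by omega⟩
    exact ⟨(lay k)[j], List.getElem_mem _, h1.getElem j hi⟩

/-- the position of the previous sibling -/
theorem sib_pos {c : ℝ} (hc : Cub c) {m n : Node} (h : Sib c m n) :
    ap c n.2 (ap c (rot (dprev n.1)) e1) = pos c m := by
  have h1 := h (ap c (rot (dprev n.1)) e1)
  rw [h1, ap_append]
  show ap c m.2 (ap c (rot 6) (Jv c (ap c (rot (7 - dprev n.1)) (ap c (rot (dprev n.1)) e1)))) = _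
  rw [ap_rot]
  have h3 : 7 - dprev n.1 + dprev n.1 = 7 := by
    unfold dprev
    split_ifs <;> rfl
  rw [h3, ap_rot7 c hc, Jv_e1, ap_rot_e0]
  rfl

/-- the position of the next sibling -/
theorem sib_next {c : ℝ} {m n : Node} (h : Sib c m n) :
    ap c m.2 (ap c (rot 6) e1) = pos c n := by
  have h1 := h e0
  show _ = ap c n.2 e0
  rw [h1, ap_append]
  show _ = ap c m.2 (ap c (rot 6) (Jv c (ap c (rot (7 - dprev n.1)) e0)))
  rw [ap_rot_e0, Jv_e0]

theorem par' : S_Par := by
  intro c hc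
  refine ⟨?_, ?_⟩
  · intro n hn
    have e : lay 0 = (List.range 7).map (fun i => (true, rot i ++ [false])) := rfl
    rw [e, List.mem_map] at hn
    obtain ⟨i, _, rfl⟩ := hn
    refine ⟨rfl, ?_⟩
    show ap c (rot i ++ [false]) e1 = e0
    rw [ap_rj, Jv_e1, ap_rot_e0]
  · intro k n hn
    have e : lay (k + 1) = (lay k).flatMap kids := rfl
    rw [e, List.mem_flatMap] at hn
    obtain ⟨n', hn', hk⟩ := hn
    have h1 : ∃ j, n.2 = n'.2 ++ (rot j ++ [false]) ∧ (n.1 = false → j = dprev n'.1 + 1) := by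
      unfold kids at hk
      unfold dprev
      split_ifs at hk ⊢ with ht
      · simp only [List.mem_cons, List.not_mem_nil, or_false] at hk
        rcases hk with rfl | rfl | rfl
        · exact ⟨2, rfl, fun _ => rfl⟩
        · exact ⟨3, rfl, fun h => by simp at h⟩
        · exact ⟨4, rfl, fun h => by simp at h⟩
      · simp only [List.mem_cons, List.not_mem_nil, or_false] at hk
        rcases hk with rfl | rfl
        · exact ⟨3, rfl, fun _ => rfl⟩
        · exact ⟨4, rfl, fun h => by simp at h⟩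
    obtain ⟨j, hj, hj2⟩ := h1
    refine ⟨?_, fun hB => ?_⟩
    · rw [hj, ap_append, ap_rj, Jv_e1, ap_rot_e0, List.mem_map]
      exact ⟨n', hn', rfl⟩
    · have hjd := hj2 hB
      obtain ⟨m, hm, hs⟩ := exists_pred hc hn'
      rw [hj, ap_append, ap_rj, Jv_e2 c hc, ap_rot, hjd]
      have h3 : dprev n'.1 + 1 + 6 = dprev n'.1 + 7 := by ring
      rw [h3, rot_add7 hc, sib_pos hc hs, List.mem_map]
      exact ⟨m, hm, rfl⟩

theorem par (_ : S_Chn) : S_Par := par'

end Pool.Agent.Q47.HY
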