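import Pool.Agent.Q121.HY.Stm

/-!
# Project HY (helper121): jobs CNT and FRM
-/

set_option autoImplicit false

namespace Pool.Agent.Q47.HY

open Q121.HY

/-- number of `A`'s -/
def nA (l : List Node) : ℕ := l.countP (fun n => n.1)

theorem nA_append (l l' : List Node) : nA (l ++ l') = nA l + nA l' := by
  unfold nA
  rw [List.countP_append]

theorem nB_append (l l' : List Node) : nB (l ++ l') = nB l + nB l' := by
  unfold nB
  rw [List.countP_append]

theorem len_eq (l : List Node) : l.length = nA l + nB l := by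
  unfold nA nB
  induction l with
  | nil => rfl
  | cons a l ih =>
    rw [List.length_cons, List.countP_cons, List.countP_cons, ih]
    cases a.1 <;> simp <;> omega

theorem kids_A (w : List Bool) : nA (kids (true, w)) = 2 ∧ nB (kids (true, w)) = 1 := by
  simp [kids, nA, nB]

theorem kids_B (w : List Bool) : nA (kids (false, w)) = 1 ∧ nB (kids (false, w)) = 1 := by
  simp [kids, nA, nB]

theorem flat_count (l : List Node) : nA (l.flatMap kids) = 2 * nA l + nB l ∧
    nB (l.flatMap kids) = nA l + nB l := by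
  induction l with
  | nil => simp [nA, nB]
  | cons a l ih =>
    rw [List.flatMap_cons, nA_append, nB_append, ih.1, ih.2]
    obtain ⟨t, w⟩ := a
    have h1 : nA ((t, w) :: l) = nA l + if t then 1 else 0 := by
      unfold nA
      rw [List.countP_cons]
    have h2 : nB ((t, w) :: l) = nB l + if t then 0 else 1 := by
      unfold nB
      rw [List.countP_cons]
      cases t <;> rfl
    rw [h1, h2]
    cases t
    · rw [(kids_B w).1, (kids_B w).2]
      simp
      omega
    · rw [(kids_A w).1, (kids_A w).2]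
      simp
      omega

/-- the counts of the layers -/
theorem lay_count (k : ℕ) : nA (lay k) = 7 * Nat.fib (2 * k + 1) ∧ nB (lay k) = 7 * Nat.fib (2 * k) := by
  induction k with
  | zero => decide
  | succ k ih =>
    have h := flat_count (lay k)
    have e : lay (k + 1) = (lay k).flatMap kids := rfl
    have f1 : Nat.fib (2 * (k + 1)) = Nat.fib (2 * k) + Nat.fib (2 * k + 1) := by
      rw [show 2 * (k + 1) = 2 * k + 2 by ring, Nat.fib_add_two]
    have f2 : Nat.fib (2 * (k + 1) + 1) = Nat.fib (2 * k + 1) + Nat.fib (2 * (k + 1)) := by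
      rw [show 2 * (k + 1) + 1 = 2 * k + 1 + 2 by ring, Nat.fib_add_two]
      rfl
    rw [e, h.1, h.2, ih.1, ih.2, f2, f1]
    constructor <;> ring

/-- prefixes of the children -/
theorem prefix_step (F0 F1 : ℕ) : ∀ (l : List Node) (a0 b0 : ℕ),
    (∀ m : ℕ, (a0 + nA (l.take m)) * F0 ≤ (b0 + nB (l.take m)) * F1) →
    ∀ m : ℕ, (2 * a0 + b0 + nA ((l.flatMap kids).take m)) * (F0 + F1) ≤
      (a0 + b0 + nB ((l.flatMap kids).take m)) * (F1 + (F0 + F1)) := by
  intro l
  induction l with
  | nil =>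
    intro a0 b0 h m
    have h0 := h 0
    simp [nA, nB] at h0 ⊢
    nlinarith
  | cons x l ih =>
    intro a0 b0 h m
    have h0 : a0 * F0 ≤ b0 * F1 := by
      have := h 0
      simpa [nA, nB] using this
    rw [List.flatMap_cons, List.take_append, nA_append, nB_append]
    obtain ⟨t, w⟩ := x
    by_cases hm : (kids (t, w)).length ≤ m
    · rw [List.take_of_length_le hm]
      have hh : ∀ m : ℕ, (a0 + (if t then 1 else 0) + nA (l.take m)) * F0 ≤
          (b0 + (if t then 0 else 1) + nB (l.take m)) * F1 := by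
        intro m'
        have h1 := h (m' + 1)
        rw [List.take_succ_cons] at h1
        have e1 : nA ((t, w) :: l.take m') = nA (l.take m') + if t then 1 else 0 := by
          unfold nA
          rw [List.countP_cons]
        have e2 : nB ((t, w) :: l.take m') = nB (l.take m') + if t then 0 else 1 := by
          unfold nB
          rw [List.countP_cons]
          cases t <;> rfl
        rw [e1, e2] at h1
        have e3 : a0 + (if t then 1 else 0) + nA (l.take m') = a0 + (nA (l.take m') + if t then 1 else 0) := by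
          ring
        have e4 : b0 + (if t then 0 else 1) + nB (l.take m') = b0 + (nB (l.take m') + if t then 0 else 1) := by
          ring
        rw [e3, e4]
        exact h1
      have h2 := ih _ _ hh (m - (kids (t, w)).length)
      cases t
      · rw [(kids_B w).1, (kids_B w).2]
        simp only [Bool.false_eq_true, if_false] at h2
        refine le_trans (le_of_eq ?_) (h2.trans (le_of_eq ?_))
        · ring
        · ring
      · rw [(kids_A w).1, (kids_A w).2]
        simp only [if_true] at h2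
        refine le_trans (le_of_eq ?_) (h2.trans (le_of_eq ?_))
        · ring
        · ring
    · push Not at hm
      have hz : m - (kids (t, w)).length = 0 := by omega
      rw [hz, List.take_zero]
      have base : (2 * a0 + b0) * (F0 + F1) ≤ (a0 + b0) * (F1 + (F0 + F1)) := by nlinarith
      have n0 : nA ([] : List Node) = 0 ∧ nB ([] : List Node) = 0 := by simp [nA, nB]
      rw [n0.1, n0.2]
      have cases3 : (nA ((kids (t, w)).take m) = 0 ∧ nB ((kids (t, w)).take m) = 0) ∨
          (nA ((kids (t, w)).take m) ≤ 1 ∧ nB ((kids (t, w)).take m) = 1) := by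
        cases t
        · have hl : (kids (false, w)).length = 2 := by simp [kids]
          rw [hl] at hm
          interval_cases m
          · left; simp [nA, nB]
          · right; simp [kids, nA, nB]
        · have hl : (kids (true, w)).length = 3 := by simp [kids]
          rw [hl] at hm
          interval_cases m
          · left; simp [nA, nB]
          · right; simp [kids, nA, nB]
          · right; simp [kids, nA, nB]
      rcases cases3 with ⟨c1, c2⟩ | ⟨c1, c2⟩
      · rw [c1, c2]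
        exact base
      · rw [c2]
        have : (2 * a0 + b0 + (nA ((kids (t, w)).take m) + 0)) * (F0 + F1) ≤
            (2 * a0 + b0 + 1) * (F0 + F1) := Nat.mul_le_mul_right _ (by omega)
        nlinarith

theorem prefix_lay (k : ℕ) : ∀ m : ℕ, nA ((lay k).take m) * Nat.fib (2 * k) ≤
    nB ((lay k).take m) * Nat.fib (2 * k + 1) := by
  induction k with
  | zero =>
    intro m
    simp
  | succ k ih =>
    intro m
    have h := prefix_step (Nat.fib (2 * k)) (Nat.fib (2 * k + 1)) (lay k) 0 0 (by simpa using ih) m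
    have f1 : Nat.fib (2 * (k + 1)) = Nat.fib (2 * k) + Nat.fib (2 * k + 1) := by
      rw [show 2 * (k + 1) = 2 * k + 2 by ring, Nat.fib_add_two]
    have f2 : Nat.fib (2 * (k + 1) + 1) = Nat.fib (2 * k + 1) + (Nat.fib (2 * k) + Nat.fib (2 * k + 1)) := by
      rw [← f1, show 2 * (k + 1) + 1 = 2 * k + 1 + 2 by ring, Nat.fib_add_two]
      rfl
    rw [f2, f1]
    have e : lay (k + 1) = (lay k).flatMap kids := rfl
    rw [e]
    simpa using h

theorem cnt : S_Cnt := by
  intro k
  obtain ⟨h1, h2⟩ := lay_count k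
  have f : Nat.fib (2 * k + 2) = Nat.fib (2 * k) + Nat.fib (2 * k + 1) := Nat.fib_add_two
  refine ⟨?_, h2, fun m hm => ?_⟩
  · rw [len_eq, h1, h2, f]
    ring
  · have h3 := prefix_lay k m
    have h4 := len_eq ((lay k).take m)
    rw [List.length_take, min_eq_left hm] at h4
    rw [f]
    nlinarith

theorem eb_eq (k : ℕ) : (eb k : ℤ) = 21 * Nat.fib (2 * k + 1) - 7 * Nat.fib (2 * k) - 21 := by
  induction k with
  | zero => simp [eb]
  | succ k ih =>
    obtain ⟨h1, h2, -⟩ := cnt k
    have f : Nat.fib (2 * k + 2) = Nat.fib (2 * k) + Nat.fib (2 * k + 1) := Nat.fib_add_two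
    have f1 : Nat.fib (2 * (k + 1)) = Nat.fib (2 * k) + Nat.fib (2 * k + 1) := by
      rw [show 2 * (k + 1) = 2 * k + 2 by ring, Nat.fib_add_two]
    have f2 : Nat.fib (2 * (k + 1) + 1) = Nat.fib (2 * k + 1) + (Nat.fib (2 * k) + Nat.fib (2 * k + 1)) := by
      rw [← f1, show 2 * (k + 1) + 1 = 2 * k + 1 + 2 by ring, Nat.fib_add_two]
      rfl
    have e : eb (k + 1) = eb k + 2 * (lay k).length + nB (lay k) := rfl
    rw [e, h1, h2, f, f1, f2]
    push_cast
    rw [ih]
    ring

theorem cassini (k : ℕ) : (Nat.fib (2 * k + 1) : ℤ) ^ 2 - Nat.fib (2 * k) * Nat.fib (2 * k + 1) -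
    (Nat.fib (2 * k) : ℤ) ^ 2 = 1 := by
  induction k with
  | zero => simp
  | succ k ih =>
    have f1 : Nat.fib (2 * (k + 1)) = Nat.fib (2 * k) + Nat.fib (2 * k + 1) := by
      rw [show 2 * (k + 1) = 2 * k + 2 by ring, Nat.fib_add_two]
    have f2 : Nat.fib (2 * (k + 1) + 1) = Nat.fib (2 * k + 1) + (Nat.fib (2 * k) + Nat.fib (2 * k + 1)) := by
      rw [← f1, show 2 * (k + 1) + 1 = 2 * k + 1 + 2 by ring, Nat.fib_add_two]
      rfl
    rw [f1, f2]
    push_cast
    linear_combination ih

theorem frm : S_Frm := by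
  intro k m b hm hb hmb E n hn h0 h1
  have hE := eb_eq k
  have hC := cassini k
  have f : Nat.fib (2 * k + 2) = Nat.fib (2 * k) + Nat.fib (2 * k + 1) := Nat.fib_add_two
  rw [f] at hm hmb
  obtain ⟨f0, hf0⟩ : ∃ f0 : ℕ, f0 = Nat.fib (2 * k) := ⟨_, rfl⟩
  obtain ⟨f1, hf1⟩ : ∃ f1 : ℕ, f1 = Nat.fib (2 * k + 1) := ⟨_, rfl⟩
  rw [← hf0, ← hf1] at hm hmb hE hC
  rw [← hf1] at hn
  have hCR : (f1 : ℝ) ^ 2 - f0 * f1 - (f0 : ℝ) ^ 2 = 1 := by exact_mod_cast hC
  have hER : (eb k : ℝ) = 21 * f1 - 7 * f0 - 21 := by exact_mod_cast hE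
  have hnR : (n : ℝ) = 7 * f1 - 6 + m := by
    have := congrArg (fun z : ℤ => (z : ℝ)) hn
    push_cast at this
    exact this
  have hf0n : (0 : ℝ) ≤ f0 := Nat.cast_nonneg _
  have hf1n : (0 : ℝ) ≤ f1 := Nat.cast_nonneg _
  have hfl : ((7 / 2 : ℝ) * n - Real.sqrt (5 / 4 * (n : ℝ) ^ 2 + 15 * n - 4)) < ((E + 1 : ℤ) : ℝ) →
      ⌊(7 / 2 : ℝ) * n - Real.sqrt (5 / 4 * (n : ℝ) ^ 2 + 15 * n - 4)⌋ ≤ E := by
    intro h
    have := Int.floor_lt.2 h
    omega
  apply hfl
  rcases Nat.eq_zero_or_pos m with hm0 | hm1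
  · have hE' := h0 hm0
    rw [hE']
    subst hm0
    have e1 : (5 / 4 * (n : ℝ) ^ 2 + 15 * n - 4) = (7 / 2 * (2 * f0 + f1)) ^ 2 := by
      rw [hnR]
      push_cast
      linear_combination (49 : ℝ) * hCR
    rw [e1, Real.sqrt_sq (by positivity), hnR]
    push_cast
    rw [hER]
    linarith
  · have hE' := h1 hm1
    have hE'R : (E : ℝ) = eb k + 2 * m + b - 1 := by
      have := congrArg (fun z : ℤ => (z : ℝ)) hE'
      push_cast at this
      exact this
    have hmR : (m : ℝ) < 7 * (f0 + f1) := by exact_mod_cast hm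
    have hbR : (b : ℝ) ≤ m := by exact_mod_cast hb
    have hm1R : (1 : ℝ) ≤ m := by exact_mod_cast hm1
    have hb0 : (0 : ℝ) ≤ b := Nat.cast_nonneg _
    have hmbR : (m : ℝ) * f0 ≤ b * (f0 + f1) := by exact_mod_cast hmb
    obtain ⟨y, hy⟩ : ∃ y : ℝ, y = 7 * (2 * f0 + f1) + 3 * m - 2 * b := ⟨_, rfl⟩
    have hy0 : 0 ≤ y := by rw [hy]; linarith
    have hf2 : (0 : ℝ) < f0 + f1 := by linarith
    have hW : (f0 + f1) * y ≤ 7 * (2 * f0 + f1) * (f0 + f1) + m * (f0 + 3 * f1) := by
      rw [hy]
      nlinarith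
    have hid : ((f0 : ℝ) + f1) ^ 2 * (5 * (7 * f1 + m) ^ 2 - 196) -
        (7 * (2 * f0 + f1) * (f0 + f1) + m * (f0 + 3 * f1)) ^ 2 = 4 * m * (7 * (f0 + f1) - m) := by
      linear_combination (28 * m * (f0 + f1) + 196 * (f0 + f1) ^ 2 - 4 * m ^ 2 : ℝ) * hCR
    have hy2 : y ^ 2 < 5 * (7 * f1 + m) ^ 2 - 196 := by
      have h3 : ((f0 + f1) * y) ^ 2 ≤ (7 * (2 * f0 + f1) * (f0 + f1) + m * (f0 + 3 * f1) : ℝ) ^ 2 :=
        pow_le_pow_left₀ (by positivity) hW 2
      have h4 : 0 < 4 * (m : ℝ) * (7 * (f0 + f1) - m) := by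
        apply mul_pos
        · linarith
        · linarith
      have h5 : ((f0 : ℝ) + f1) ^ 2 * y ^ 2 < ((f0 : ℝ) + f1) ^ 2 * (5 * (7 * f1 + m) ^ 2 - 196) := by
        have : ((f0 + f1) * y) ^ 2 = ((f0 : ℝ) + f1) ^ 2 * y ^ 2 := by ring
        linarith
      exact lt_of_mul_lt_mul_left h5 (by positivity)
    have hQ : 4 * (5 / 4 * (n : ℝ) ^ 2 + 15 * n - 4) = 5 * (7 * f1 + m) ^ 2 - 196 := by
      rw [hnR]
      ring
    have hs : y / 2 < Real.sqrt (5 / 4 * (n : ℝ) ^ 2 + 15 * n - 4) := by
      rw [Real.lt_sqrt (by linarith)]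
      have : (y / 2) ^ 2 = y ^ 2 / 4 := by ring
      rw [this]
      linarith
    push_cast
    rw [hE'R, hER]
    rw [hy] at hs
    linarith

end Pool.Agent.Q47.HY
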