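import Pool.Agent.Q121.HY.Stm

/-!
# Project HY (helper121): jobs MAP and MIN
-/

set_option autoImplicit false

namespace Pool.Agent.Q47.HY

open Q121.HY

/-- the first coordinate -/
noncomputable def mX (c : ℝ) (v : V) : ℝ := F c e0 v / (2 - c)
/-- the second coordinate -/
noncomputable def mY (c : ℝ) (v : V) : ℝ := 2 * Real.sqrt (c - 1) / (2 - c) * (v.2.1 + c / 2 * v.2.2)
/-- the third coordinate -/
noncomputable def mZ (c : ℝ) (v : V) : ℝ :=
  2 * Real.sqrt (c - 1) / (2 - c) * (Real.sqrt (1 - c ^ 2 / 4) * v.2.2)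

theorem form_eq {c : ℝ} (h1 : 1 < c) (h2 : c < 2) (u v : V) :
    mX c u * mX c v - mY c u * mY c v - mZ c u * mZ c v = F c u v / (2 - c) := by
  have hs : (2 - c) ≠ 0 := by linarith
  have q1 : Real.sqrt (c - 1) ^ 2 = c - 1 := Real.sq_sqrt (by linarith)
  have q2 : Real.sqrt (1 - c ^ 2 / 4) ^ 2 = 1 - c ^ 2 / 4 := Real.sq_sqrt (by nlinarith)
  unfold mX mY mZ
  have e1 : 2 * Real.sqrt (c - 1) / (2 - c) * (Real.sqrt (1 - c ^ 2 / 4) * u.2.2) *
      (2 * Real.sqrt (c - 1) / (2 - c) * (Real.sqrt (1 - c ^ 2 / 4) * v.2.2)) =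
      4 * (c - 1) * (1 - c ^ 2 / 4) / (2 - c) ^ 2 * (u.2.2 * v.2.2) := by
    rw [← q1, ← q2, Real.sqrt_sq (Real.sqrt_nonneg _), Real.sqrt_sq (Real.sqrt_nonneg _)]
    field_simp
    ring
  have e2 : 2 * Real.sqrt (c - 1) / (2 - c) * (u.2.1 + c / 2 * u.2.2) *
      (2 * Real.sqrt (c - 1) / (2 - c) * (v.2.1 + c / 2 * v.2.2)) =
      4 * (c - 1) / (2 - c) ^ 2 * ((u.2.1 + c / 2 * u.2.2) * (v.2.1 + c / 2 * v.2.2)) := by
    rw [← q1, Real.sqrt_sq (Real.sqrt_nonneg _)]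
    field_simp
    ring
  rw [e1, e2]
  simp only [F, e0]
  field_simp
  ring

theorem map : S_Map := by
  intro c h1 h2
  have hs : 0 < 2 - c := by linarith
  classical
  have key : ∀ v : V, Fwd c v → 0 < mX c v - mY c v ∧ mX c v ^ 2 - mY c v ^ 2 - mZ c v ^ 2 = 1 := by
    intro v hv
    have e1 := form_eq h1 h2 v v
    rw [hv.1, div_self hs.ne'] at e1
    have hX : 0 < mX c v := div_pos hv.2 hs
    have e2 : mX c v ^ 2 - mY c v ^ 2 - mZ c v ^ 2 = 1 := by rw [← e1]; ring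
    refine ⟨?_, e2⟩
    have h3 : mY c v ^ 2 < mX c v ^ 2 := by nlinarith [sq_nonneg (mZ c v)]
    have h4 := abs_lt_of_sq_lt_sq h3 hX.le
    have h5 := (abs_lt.1 h4).2
    linarith
  let φ : V → UpperHalfPlane := fun v =>
    if h : 0 < mX c v - mY c v then
      ⟨⟨mZ c v / (mX c v - mY c v), 1 / (mX c v - mY c v)⟩, by
        show 0 < 1 / (mX c v - mY c v)
        positivity⟩
    else UpperHalfPlane.I
  refine ⟨φ, fun u v hu hv => ?_⟩
  obtain ⟨a1, a2⟩ := key u hu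
  obtain ⟨b1, b2⟩ := key v hv
  have p1 : (φ u).re = mZ c u / (mX c u - mY c u) ∧ (φ u).im = 1 / (mX c u - mY c u) := by
    simp only [φ]
    rw [dif_pos a1]
    exact ⟨rfl, rfl⟩
  have p2 : (φ v).re = mZ c v / (mX c v - mY c v) ∧ (φ v).im = 1 / (mX c v - mY c v) := by
    simp only [φ]
    rw [dif_pos b1]
    exact ⟨rfl, rfl⟩
  rw [UpperHalfPlane.cosh_dist', p1.1, p1.2, p2.1, p2.2, ← form_eq h1 h2 u v]
  obtain ⟨X, hX⟩ : ∃ X, X = mX c u := ⟨_, rfl⟩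
  obtain ⟨Y, hY⟩ : ∃ Y, Y = mY c u := ⟨_, rfl⟩
  obtain ⟨Z, hZ⟩ : ∃ Z, Z = mZ c u := ⟨_, rfl⟩
  obtain ⟨X', hX'⟩ : ∃ X', X' = mX c v := ⟨_, rfl⟩
  obtain ⟨Y', hY'⟩ : ∃ Y', Y' = mY c v := ⟨_, rfl⟩
  obtain ⟨Z', hZ'⟩ : ∃ Z', Z' = mZ c v := ⟨_, rfl⟩
  rw [← hX, ← hY, ← hZ] at a2 ⊢
  rw [← hX, ← hY] at a1
  rw [← hX', ← hY', ← hZ'] at b2 ⊢
  rw [← hX', ← hY'] at b1
  have n1 : X - Y ≠ 0 := a1.ne'
  have n2 : X' - Y' ≠ 0 := b1.ne'
  have e3 : (Z / (X - Y) - Z' / (X' - Y')) ^ 2 + (1 / (X - Y)) ^ 2 + (1 / (X' - Y')) ^ 2 =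
      2 * (1 / (X - Y)) * (1 / (X' - Y')) * (X * X' - Y * Y' - Z * Z') := by
    field_simp
    linear_combination (-(X' - Y') ^ 2) * a2 - (X - Y) ^ 2 * b2
  rw [e3]
  field_simp

theorem rot_id {c : ℝ} (v : V) (hv : F c v v = 2 - c) :
    (2 - c) * F c v (Rv c v) = (2 - c) ^ 2 + ((F c e0 v) ^ 2 - (2 - c) ^ 2) * (1 - c / 2) := by
  have h : (2 - c) * F c v (Rv c v) - ((2 - c) * F c v v + ((F c e0 v) ^ 2 - (2 - c) * F c v v) * (1 - c / 2)) = 0 := by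
    simp only [F, Rv, e0]
    ring
  rw [hv] at h
  linarith

theorem min_one (hr : S_Rcs) (hf : S_Fin) {c : ℝ} (hc : Std c) :
    ∀ w : List Bool, ap c w e0 ≠ e0 → c ≤ F c e0 (ap c w e0) := by
  obtain ⟨hcub, hc1, hc2⟩ := hc
  obtain ⟨r1, r2, r3⟩ := hr c (by linarith) (by linarith)
  by_contra hcon
  push Not at hcon
  obtain ⟨w0, hw0, hw1⟩ := hcon
  have hF : ∀ w, 2 - c ≤ F c e0 (ap c w e0) := fun w => (r1 _ _ r3 (r2 w _ r3)).1
  obtain ⟨S, hS⟩ : ∃ S : Set ℝ, S = {x | ∃ w : List Bool, x = F c e0 (ap c w e0) ∧ ap c w e0 ≠ e0 ∧ x < c} :=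
    ⟨_, rfl⟩
  have hfin : S.Finite := by
    refine (hf c ⟨hcub, hc1, hc2⟩ c).subset ?_
    rw [hS]
    rintro x ⟨w, hx, _, hlt⟩
    refine ⟨w, hx, ?_⟩
    have := hF w
    rw [abs_of_nonneg (by rw [hx]; linarith)]
    exact hlt.le
  have hne : S.Nonempty := ⟨_, by rw [hS]; exact ⟨w0, rfl, hw0, hw1⟩⟩
  obtain ⟨X, hX, hmin⟩ := Set.exists_min_image S id hfin hne
  rw [hS] at hX
  obtain ⟨w, hXw, hwne, hXc⟩ := hX
  obtain ⟨v, hv⟩ : ∃ v, v = ap c w e0 := ⟨_, rfl⟩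
  rw [← hv] at hXw hwne
  have hvF : Fwd c v := by rw [hv]; exact r2 w _ r3
  have hXs : 2 - c < X := by
    have h1 := r1 _ _ r3 hvF
    rw [← hXw] at h1
    rcases lt_or_eq_of_le h1.1 with h2 | h2
    · exact h2
    · exact absurd (h1.2 h2.symm).symm hwne
  obtain ⟨w', hw'⟩ := ap_inv c hcub w
  obtain ⟨u, hu⟩ : ∃ u, u = ap c (w' ++ (true :: w)) e0 := ⟨_, rfl⟩
  have hwu : ap c w u = Rv c v := by
    rw [hu, ap_append, (hw' _).2]
    simp only [ap]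
    rw [← hv]
  have hFu : F c e0 u = F c v (Rv c v) := by
    rw [← hwu, hv, F_ap]
  have hune : u ≠ e0 := by
    intro h
    rw [h, ← hv] at hwu
    have h1 := hvF.1
    have h2 := hvF.2
    obtain ⟨x, y, z⟩ := v
    simp only [Rv, Prod.mk.injEq] at hwu
    obtain ⟨g1, g2, g3⟩ := hwu
    have hz : z = 0 := by
      have : c * z = 0 := by linarith
      rcases mul_eq_zero.1 this with h5 | h5
      · linarith
      · exact h5
    have hy : y = 0 := by rw [g2, hz]; ring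
    rw [hy, hz] at h1 h2 hwne
    simp only [F, e0] at h1 h2
    have hx2 : x ^ 2 = 1 := by
      have : (2 - c) * (x ^ 2 - 1) = 0 := by linarith
      rcases mul_eq_zero.1 this with h5 | h5
      · linarith
      · linarith
    have hx0 : 0 < x := by
      have : 0 < (2 - c) * x := by linarith
      exact (mul_pos_iff_of_pos_left (by linarith)).1 this
    have hx1 : x = 1 := by nlinarith
    apply hwne
    rw [hx1]
    rfl
  have hid := rot_id (c := c) v hvF.1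
  rw [← hXw, ← hFu] at hid
  have hlt : F c e0 u < X := by
    have h1 : (2 - c) * F c e0 u < (2 - c) * X := by
      rw [hid]
      have g1 : 0 < (2 - c) * (X - (2 - c)) * (c - X) :=
        mul_pos (mul_pos (by linarith) (by linarith)) (by linarith)
      have g2 : (2 - c) ^ 2 + (X ^ 2 - (2 - c) ^ 2) * (1 - c / 2) =
        (2 - c) * X - ((2 - c) * (X - (2 - c)) * (c - X)) / 2 := by ring
      rw [g2]
      linarith
    exact lt_of_mul_lt_mul_left h1 (by linarith)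
  have hmem : F c e0 u ∈ S := by
    rw [hS]
    exact ⟨w' ++ (true :: w), by rw [← hu], by rw [← hu]; exact hune, by linarith⟩
  have := hmin _ hmem
  simp only [id] at this
  linarith

theorem min (hr : S_Rcs) (hf : S_Fin) : S_Min := by
  intro c hc w w' hne
  obtain ⟨w1, hw1⟩ := ap_inv c hc.1 w
  have h1 : F c (ap c w e0) (ap c w' e0) = F c e0 (ap c (w1 ++ w') e0) := by
    have h2 := F_ap c w e0 (ap c (w1 ++ w') e0)
    rw [← h2, ap_append, (hw1 _).2]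
  rw [h1]
  apply min_one hr hf hc
  intro h
  apply hne
  have h2 : ap c w (ap c (w1 ++ w') e0) = ap c w e0 := by rw [h]
  rw [ap_append, (hw1 _).2] at h2
  exact h2.symm

end Pool.Agent.Q47.HY
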