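import Pool.Agent.Q121.HY.Stm

/-!
# Project HY (helper121): jobs NUM and UNI
-/

set_option autoImplicit false

namespace Pool.Agent.Q47.HY

open Q121.HY

theorem num : S_Num := by
  have hpi := Real.pi_pos
  refine ⟨?_, ?_⟩
  · obtain ⟨t, ht⟩ : ∃ t : ℝ, t = 2 * Real.pi / 7 := ⟨_, rfl⟩
    rw [← ht]
    obtain ⟨x, hx⟩ : ∃ x : ℝ, x = Real.cos t := ⟨_, rfl⟩
    rw [← hx]
    have h4 : Real.cos (4 * t) = Real.cos (3 * t) := by
      have h1 : 4 * t = 2 * Real.pi - 3 * t := by rw [ht]; ring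
      rw [h1, Real.cos_two_pi_sub]
    have h3 : Real.cos (3 * t) = 4 * x ^ 3 - 3 * x := by rw [hx, Real.cos_three_mul]
    have h5 : Real.cos (4 * t) = 8 * x ^ 4 - 8 * x ^ 2 + 1 := by
      have h1 : 4 * t = 2 * (2 * t) := by ring
      rw [h1, Real.cos_two_mul, Real.cos_two_mul, ← hx]
      ring
    have h6 : (x - 1) * (8 * x ^ 3 + 4 * x ^ 2 - 4 * x - 1) = 0 := by
      have : 8 * x ^ 4 - 8 * x ^ 2 + 1 = 4 * x ^ 3 - 3 * x := by rw [← h5, ← h3, h4]
      linear_combination this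
    have hx1 : x < 1 := by
      have h7 : Real.cos t < Real.cos 0 :=
        Real.cos_lt_cos_of_nonneg_of_le_pi le_rfl (by rw [ht]; linarith) (by rw [ht]; positivity)
      rw [Real.cos_zero] at h7
      rw [hx]
      exact h7
    have hx0 : 0 < x := by
      rw [hx]
      exact Real.cos_pos_of_mem_Ioo ⟨by rw [ht]; linarith, by rw [ht]; linarith⟩
    have hcub : Cub (2 * x) := by
      rcases mul_eq_zero.1 h6 with h7 | h7
      · linarith
      · unfold Cub
        linear_combination h7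
    have hc := hcub
    unfold Cub at hc
    obtain ⟨c, hcd⟩ : ∃ c : ℝ, c = 2 * x := ⟨_, rfl⟩
    have hc0 : 0 < c := by rw [hcd]; linarith
    rw [← hcd] at hc hcub ⊢
    refine ⟨hcub, ?_, ?_⟩
    · by_contra hcon
      push Not at hcon
      have h8 : c ^ 2 ≤ 1.2469 * c := by nlinarith
      have h9 : c ^ 3 ≤ 1.2469 * (1.2469 * c) := by
        have : c ^ 3 = c * c ^ 2 := by ring
        rw [this]
        nlinarith
      nlinarith
    · by_contra hcon
      push Not at hcon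
      have h8 : 1.247 * c ≤ c ^ 2 := by nlinarith
      have h9 : 1.247 * (1.247 * c) ≤ c ^ 3 := by
        have : c ^ 3 = c * c ^ 2 := by ring
        rw [this]
        nlinarith
      nlinarith
  · have hcont : Continuous (fun c : ℝ => c ^ 3 + c ^ 2 - 2 * c - 1) := by fun_prop
    have h1 := intermediate_value_Ioo' (show (-0.5 : ℝ) ≤ -0.4 by norm_num) hcont.continuousOn
    have h2 := intermediate_value_Ioo (show (-1.9 : ℝ) ≤ -1.7 by norm_num) hcont.continuousOn
    obtain ⟨c2, ⟨g1, g2⟩, g3⟩ := h1 (show (0 : ℝ) ∈ _ by constructor <;> norm_num)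
    obtain ⟨c3, ⟨k1, k2⟩, k3⟩ := h2 (show (0 : ℝ) ∈ _ by constructor <;> norm_num)
    exact ⟨c2, c3, g3, k3, g1, g2, k1, k2⟩

/-- functions given on the roots by a fixed integer polynomial -/
def Un (f : ℝ → ℝ) : Prop := ∃ p q r : ℤ, ∀ c : ℝ, Cub c → f c = p + q * c + r * c ^ 2

theorem Un.add {f g : ℝ → ℝ} (hf : Un f) (hg : Un g) : Un (fun c => f c + g c) := by
  obtain ⟨p, q, r, h⟩ := hf
  obtain ⟨p', q', r', h'⟩ := hg
  refine ⟨p + p', q + q', r + r', fun c hc => ?_⟩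
  simp only
  rw [h c hc, h' c hc]
  push_cast
  ring

theorem Un.neg {f : ℝ → ℝ} (hf : Un f) : Un (fun c => - f c) := by
  obtain ⟨p, q, r, h⟩ := hf
  refine ⟨-p, -q, -r, fun c hc => ?_⟩
  simp only
  rw [h c hc]
  push_cast
  ring

theorem Un.mulc {f : ℝ → ℝ} (hf : Un f) : Un (fun c => c * f c) := by
  obtain ⟨p, q, r, h⟩ := hf
  refine ⟨r, p + 2 * r, q - r, fun c hc => ?_⟩
  simp only
  rw [h c hc]
  unfold Cub at hc
  push_cast
  linear_combination (r : ℝ) * hc

theorem Un.int (n : ℤ) : Un (fun _ => (n : ℝ)) := ⟨n, 0, 0, fun c _ => by simp⟩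

theorem coords (w : List Bool) : Un (fun c => (ap c w e0).1) ∧ Un (fun c => (ap c w e0).2.1) ∧
    Un (fun c => (ap c w e0).2.2) := by
  induction w with
  | nil =>
    refine ⟨?_, ?_, ?_⟩
    · simpa [ap, e0] using Un.int 1
    · simpa [ap, e0] using Un.int 0
    · simpa [ap, e0] using Un.int 0
  | cons b w ih =>
    obtain ⟨h1, h2, h3⟩ := ih
    cases b
    · refine ⟨?_, ?_, ?_⟩
      · exact h2.add h3.mulc
      · exact h1.add h3.mulc
      · exact h3.neg
    · refine ⟨?_, ?_, ?_⟩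
      · exact h1.add h3.mulc
      · exact h3.neg
      · exact h2.add h3.mulc

theorem uni : S_Uni := by
  intro w
  obtain ⟨h1, h2, h3⟩ := coords w
  have h := ((h1.add h1).add h1.mulc.neg).add (h2.mulc.add h3.mulc)
  obtain ⟨p, q, r, hpqr⟩ := h
  refine ⟨p, q, r, fun c hc => ?_⟩
  rw [← hpqr c hc]
  simp only [F, e0]
  ring

end Pool.Agent.Q47.HY
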