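import Pool.Agent.Q121.HY.Stm
import Pool.Agent.Q47.HY.Chn

/-!
# Project HY (helper121): jobs TREE and EDG
-/

set_option autoImplicit false

namespace Pool.Agent.Q47.HY

open Q121.HY

/-- the region of a node -/
def Rg (c : ℝ) (n : Node) : Set V := {y | ∃ x, Fwd c x ∧ Reg c n.1 x ∧ y = ap c n.2 x}

theorem kids_shift (t : Bool) (w : List Bool) :
    kids (t, w) = (kids (t, [])).map (fun n => (n.1, w ++ n.2)) := by
  cases t <;> simp [kids]

theorem kid_sub {c : ℝ} (hc : Std c) (h1 : S_Reg) (h3 : S_Rcs) {n m : Node} (hm : m ∈ kids n) :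
    Rg c m ⊆ Rg c n ∧ pos c n ∉ Rg c m := by
  obtain ⟨t, w⟩ := n
  rw [kids_shift, List.mem_map] at hm
  obtain ⟨m0, hm0, rfl⟩ := hm
  have hR := (h1 c hc t).2.1 m0 hm0
  have hF := (h3 c (by linarith [hc.2.1]) (by linarith [hc.2.2])).2.1
  constructor
  · rintro y ⟨x, hx1, hx2, rfl⟩
    exact ⟨ap c m0.2 x, hF _ _ hx1, (hR x hx1 hx2).1, ap_append c w m0.2 x⟩
  · rintro ⟨x, hx1, hx2, hx3⟩
    have h4 : ap c w e0 = ap c (w ++ m0.2) x := hx3
    rw [ap_append] at h4
    exact (hR x hx1 hx2).2 (ap_inj c hc.1 w h4).symm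

theorem kid_disj {c : ℝ} (hc : Std c) (h1 : S_Reg) (n : Node) :
    (kids n).Pairwise (fun a b => Disjoint (Rg c a) (Rg c b)) := by
  obtain ⟨t, w⟩ := n
  rw [kids_shift, List.pairwise_map]
  refine (h1 c hc t).2.2.imp ?_
  intro a b hab
  rw [Set.disjoint_left]
  rintro y ⟨x, hx1, hx2, hx3⟩ ⟨x', hx1', hx2', hx3'⟩
  have h4 : y = ap c w (ap c a.2 x) := by rw [hx3]; exact ap_append c w a.2 x
  have h5 : y = ap c w (ap c b.2 x') := by rw [hx3']; exact ap_append c w b.2 x'
  rw [h4] at h5
  exact hab x x' hx1 hx1' hx2 hx2' (ap_inj c hc.1 w h5)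

theorem pos_mem {c : ℝ} (hc : Std c) (h1 : S_Reg) (h3 : S_Rcs) (n : Node) : pos c n ∈ Rg c n :=
  ⟨e0, (h3 c (by linarith [hc.2.1]) (by linarith [hc.2.2])).2.2, (h1 c hc n.1).1, rfl⟩

theorem tree (h1 : S_Reg) (h2 : S_Root) (h3 : S_Rcs) : S_Tree := by
  intro c hc
  have key : ∀ k : ℕ, (lay k).Pairwise (fun a b => Disjoint (Rg c a) (Rg c b)) ∧
      (∀ y ∈ ball c k, ∀ n ∈ lay k, y ∉ Rg c n) ∧ (ball c k).Nodup := by
    intro k
    induction k with
    | zero =>
      obtain ⟨ha, hb⟩ := h2 c hc
      refine ⟨?_, ?_, ?_⟩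
      · refine hb.imp ?_
        intro a b hab
        rw [Set.disjoint_left]
        rintro y ⟨x, hx1, hx2, hx3⟩ ⟨x', hx1', hx2', hx3'⟩
        exact hab x x' hx1 hx1' hx2 hx2' (hx3.symm.trans hx3')
      · intro y hy n hn
        have e : ball c 0 = [e0] := rfl
        rw [e, List.mem_singleton] at hy
        subst hy
        rintro ⟨x, hx1, hx2, hx3⟩
        exact (ha n hn).2 x hx1 hx2 hx3.symm
      · exact List.nodup_singleton _
    | succ k ih =>
      obtain ⟨p1, p2, p3⟩ := ih
      have e : lay (k + 1) = (lay k).flatMap kids := rfl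
      have e' : ball c (k + 1) = ball c k ++ (lay k).map (pos c) := rfl
      refine ⟨?_, ?_, ?_⟩
      · rw [e, List.pairwise_flatMap]
        refine ⟨fun a _ => kid_disj hc h1 a, ?_⟩
        refine p1.imp ?_
        intro a b hab x hx y hy
        exact hab.mono (kid_sub hc h1 h3 hx).1 (kid_sub hc h1 h3 hy).1
      · intro y hy n hn hyn
        rw [e, List.mem_flatMap] at hn
        obtain ⟨m, hm, hn⟩ := hn
        obtain ⟨hs1, hs2⟩ := kid_sub hc h1 h3 hn
        rw [e', List.mem_append] at hy
        rcases hy with hy | hy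
        · exact p2 y hy m hm (hs1 hyn)
        · rw [List.mem_map] at hy
          obtain ⟨m', hm', rfl⟩ := hy
          by_cases hmm : m = m'
          · subst hmm
            exact hs2 hyn
          · have : Std.Symm (fun a b : Node => Disjoint (Rg c a) (Rg c b)) := ⟨fun _ _ h => h.symm⟩
            have h5 := p1.forall hm hm' hmm
            exact Set.disjoint_left.1 h5 (hs1 hyn) (pos_mem hc h1 h3 m')
      · rw [e', List.nodup_append]
        refine ⟨p3, ?_, ?_⟩
        · show List.Pairwise _ _
          rw [List.pairwise_map]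
          refine p1.imp ?_
          intro a b hab hcon
          exact Set.disjoint_left.1 hab (pos_mem hc h1 h3 a) (by rw [hcon]; exact pos_mem hc h1 h3 b)
        · intro a ha b hb hab
          rw [List.mem_map] at hb
          obtain ⟨m, hm, rfl⟩ := hb
          subst hab
          exact p2 _ ha m hm (pos_mem hc h1 h3 m)
  exact fun k => (key k).2.2

theorem ec_cons_ge (c : ℝ) (x : V) (L D : List V) (hD : D.Nodup) (h : ∀ y ∈ D, y ∈ L ∧ F c x y = c) :
    ec c L + D.length ≤ ec c (x :: L) := by
  rw [ec, List.countP_eq_length_filter]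
  refine Nat.add_le_add_left (List.Nodup.subperm hD ?_).length_le _
  intro y hy
  rw [List.mem_filter]
  exact ⟨(h y hy).1, by simpa using (h y hy).2⟩

/-- the neighbours of type-dependent directions -/
theorem dirs_nodup {c : ℝ} (hc : Std c) (t : Bool) :
    ([e1] ++ (if t then [] else [e2]) ++ [ap c (rot (dprev t)) e1] ++ [ap c (rot 6) e1] : List V).Nodup := by
  obtain ⟨h1, h2, h3⟩ := hc
  rw [← Jv_e2 c h1]
  have e1' : ap c (rot 1) e1 = e2 := Rv_e1 c
  have e2' : ap c (rot 2) e1 = Rv c e2 := by
    show Rv c (Rv c e1) = _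
    rw [Rv_e1]
  have h0 : (0 : ℝ) ≠ c := by intro h; linarith
  cases t
  · have e : dprev false = 2 := rfl
    rw [e, e2']
    simp [e1, e2, Rv, Jv, h0]
    intros
    linarith
  · have e : dprev true = 1 := rfl
    rw [e, e1']
    simp [e1, e2, Jv, h0]


theorem edg_step {c : ℝ} (hc : Std c) (k m : ℕ) (hm : m < (lay k).length) (D : List V) (hD : D.Nodup)
    (h : ∀ y ∈ D, ap c ((lay k)[m]).2 y ∈ ball c k ++ ((lay k).take m).map (pos c) ∧
      F c (pos c ((lay k)[m])) (ap c ((lay k)[m]).2 y) = c) :
    ec c (ball c k ++ ((lay k).take m).map (pos c)).reverse + D.length ≤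
      ec c (ball c k ++ ((lay k).take (m + 1)).map (pos c)).reverse ∧
    nB ((lay k).take (m + 1)) = nB ((lay k).take m) + (if ((lay k)[m]).1 then 0 else 1) := by
  have e : (lay k).take (m + 1) = (lay k).take m ++ [(lay k)[m]] := by
    rw [List.take_append_getElem]
  constructor
  · have e2 : (ball c k ++ ((lay k).take (m + 1)).map (pos c)).reverse =
        pos c ((lay k)[m]) :: (ball c k ++ ((lay k).take m).map (pos c)).reverse := by
      rw [e, List.map_append, ← List.append_assoc, List.map_singleton, List.reverse_append (bs := [_]),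
        List.reverse_singleton, List.singleton_append]
    rw [e2]
    have h1 := ec_cons_ge c (pos c ((lay k)[m])) (ball c k ++ ((lay k).take m).map (pos c)).reverse
      (D.map (ap c ((lay k)[m]).2)) (hD.map (ap_inj c hc.1 _)) (by
        intro y hy
        rw [List.mem_map] at hy
        obtain ⟨u, hu, rfl⟩ := hy
        rw [List.mem_reverse]
        exact h u hu)
    rwa [List.length_map] at h1
  · rw [e]
    unfold nB
    rw [List.countP_append, List.countP_singleton]
    cases ((lay k)[m]).1 <;> rfl

theorem base_mem {c : ℝ} (hc : Std c) (k : ℕ) (n : Node) (hn : n ∈ lay k) :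
    ∀ y ∈ ([e1] ++ (if n.1 then [] else [e2]) : List V), ap c n.2 y ∈ ball c k ∧
      F c (pos c n) (ap c n.2 y) = c := by
  obtain ⟨h0, h1⟩ := par' c hc.1
  have hF1 : F c (pos c n) (ap c n.2 e1) = c := F_nb c n.2 0
  have hF2 : F c (pos c n) (ap c n.2 e2) = c := by
    have := F_nb c n.2 1
    have e : ap c (rot 1) e1 = e2 := Rv_e1 c
    rwa [e] at this
  intro y hy
  rcases k with _ | k
  · obtain ⟨h2, h3⟩ := h0 n hn
    rw [h2, if_pos rfl, List.append_nil, List.mem_singleton] at hy
    subst hy
    exact ⟨by rw [h3]; exact List.mem_singleton.2 rfl, hF1⟩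
  · obtain ⟨h2, h3⟩ := h1 k n hn
    have e' : ball c (k + 1) = ball c k ++ (lay k).map (pos c) := rfl
    rw [List.mem_append, List.mem_singleton] at hy
    rcases hy with hy | hy
    · subst hy
      exact ⟨by rw [e', List.mem_append]; exact Or.inr h2, hF1⟩
    · by_cases ht : n.1 = true
      · rw [if_pos ht] at hy
        simp at hy
      · rw [if_neg ht, List.mem_singleton] at hy
        subst hy
        exact ⟨by rw [e', List.mem_append]; exact Or.inr (h3 (by simpa using ht)), hF2⟩

theorem base_len (t : Bool) : ([e1] ++ (if t then [] else [e2]) : List V).length =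
    1 + (if t then 0 else 1) := by
  cases t <;> rfl

theorem lay_len_ge (k : ℕ) : 7 ≤ (lay k).length := by
  induction k with
  | zero => simp [lay]
  | succ k ih =>
    have e : lay (k + 1) = (lay k).flatMap kids := rfl
    rw [e, List.length_flatMap]
    have h1 : ∀ l : List Node, l.length ≤ (l.map (fun n => (kids n).length)).sum := by
      intro l
      induction l with
      | nil => simp
      | cons a l ih =>
        rw [List.map_cons, List.sum_cons, List.length_cons]
        have : 1 ≤ (kids a).length := List.length_pos_of_ne_nil (kids_ne a)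
        omega
    exact ih.trans (h1 _)

theorem edg_layer {c : ℝ} (hc : Std c) (k : ℕ) (hk : eb k ≤ ec c (ball c k).reverse) :
    (∀ m : ℕ, m ≤ (lay k).length → eb k + 2 * m + nB ((lay k).take m) ≤
      ec c (ball c k ++ ((lay k).take m).map (pos c)).reverse + 1) ∧
    eb (k + 1) ≤ ec c (ball c (k + 1)).reverse := by
  obtain ⟨hch, hcy⟩ := chn c hc.1 k
  have hlen := lay_len_ge k
  -- the predecessor
  have hpred : ∀ m : ℕ, 1 ≤ m → ∀ hm : m < (lay k).length,
      ap c ((lay k)[m]).2 (ap c (rot (dprev ((lay k)[m]).1)) e1) ∈ ((lay k).take m).map (pos c) := by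
    intro m hm1 hm
    obtain ⟨j, rfl⟩ : ∃ j, m = j + 1 := ⟨m - 1, by omega⟩
    have h1 : Sib c ((lay k)[j]) ((lay k)[j + 1]) := hch.getElem j hm
    rw [sib_pos hc.1 h1, List.mem_map]
    refine ⟨(lay k)[j], ?_, rfl⟩
    rw [List.mem_take_iff_getElem]
    exact ⟨j, by omega, rfl⟩
  have hpart : ∀ m : ℕ, m ≤ (lay k).length → eb k + 2 * m + nB ((lay k).take m) ≤
      ec c (ball c k ++ ((lay k).take m).map (pos c)).reverse + 1 := by
    intro m
    induction m with
    | zero =>
      intro _
      simp only [List.take_zero, List.map_nil, List.append_nil]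
      have : nB [] = 0 := rfl
      omega
    | succ m ih =>
      intro hm
      have hm' : m < (lay k).length := hm
      have hb := base_mem hc k ((lay k)[m]) (List.getElem_mem _)
      have hdn := dirs_nodup hc ((lay k)[m]).1
      rw [List.append_assoc] at hdn
      rcases Nat.eq_zero_or_pos m with rfl | hm1
      · obtain ⟨h1, h2⟩ := edg_step hc k 0 hm' ([e1] ++ (if ((lay k)[0]).1 then [] else [e2]))
          (List.nodup_append.1 hdn).1 (fun y hy => ⟨List.mem_append_left _ (hb y hy).1, (hb y hy).2⟩)
        rw [base_len] at h1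
        have h3 : nB ((lay k).take 0) = 0 := rfl
        simp only [List.take_zero, List.map_nil, List.append_nil] at h1
        rw [h2, h3]
        omega
      · rw [← List.append_assoc] at hdn
        obtain ⟨h1, h2⟩ := edg_step hc k m hm' ([e1] ++ (if ((lay k)[m]).1 then [] else [e2]) ++
            [ap c (rot (dprev ((lay k)[m]).1)) e1])
          (List.nodup_append.1 hdn).1 (fun y hy => by
            rw [List.mem_append] at hy
            rcases hy with hy | hy
            · exact ⟨List.mem_append_left _ (hb y hy).1, (hb y hy).2⟩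
            · rw [List.mem_singleton] at hy
              subst hy
              exact ⟨List.mem_append_right _ (hpred m hm1 hm'), F_nb c _ _⟩)
        rw [List.length_append, base_len, List.length_singleton] at h1
        have h3 := ih hm'.le
        rw [h2]
        omega
  refine ⟨hpart, ?_⟩
  obtain ⟨m, hm⟩ : ∃ m, (lay k).length = m + 1 := ⟨(lay k).length - 1, by omega⟩
  have hm' : m < (lay k).length := by omega
  have hb := base_mem hc k ((lay k)[m]) (List.getElem_mem _)
  have hdn := dirs_nodup hc ((lay k)[m]).1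
  have hlast : (lay k)[m] = (lay k).getLast (lay_ne k) := by
    rw [List.getLast_eq_getElem]
    congr 1
    omega
  have hsib : Sib c ((lay k)[m]) ((lay k)[0]) := by
    refine hcy _ (by rw [List.getLast?_eq_getLast_of_ne_nil (lay_ne k), hlast]; rfl) _ ?_
    rw [List.head?_eq_getElem?, List.getElem?_eq_getElem (show 0 < (lay k).length by omega)]
    rfl
  obtain ⟨h1, h2⟩ := edg_step hc k m hm' ([e1] ++ (if ((lay k)[m]).1 then [] else [e2]) ++
      [ap c (rot (dprev ((lay k)[m]).1)) e1] ++ [ap c (rot 6) e1]) hdn (fun y hy => by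
      rw [List.mem_append, List.mem_append] at hy
      rcases hy with (hy | hy) | hy
      · exact ⟨List.mem_append_left _ (hb y hy).1, (hb y hy).2⟩
      · rw [List.mem_singleton] at hy
        subst hy
        exact ⟨List.mem_append_right _ (hpred m (by omega) hm'), F_nb c _ _⟩
      · rw [List.mem_singleton] at hy
        subst hy
        refine ⟨List.mem_append_right _ ?_, F_nb c _ _⟩
        rw [sib_next hsib, List.mem_map]
        refine ⟨(lay k)[0], ?_, rfl⟩
        rw [List.mem_take_iff_getElem]
        exact ⟨0, by omega, rfl⟩)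
  rw [List.length_append, List.length_append, base_len, List.length_singleton, List.length_singleton] at h1
  have h3 := hpart m hm'.le
  have h4 : (lay k).take (m + 1) = lay k := by rw [← hm, List.take_length]
  rw [h4] at h1 h2
  have e' : ball c (k + 1) = ball c k ++ (lay k).map (pos c) := rfl
  have e'' : eb (k + 1) = eb k + 2 * (lay k).length + nB (lay k) := rfl
  rw [e', e'', h2, hm]
  omega

theorem edg' : S_Edg := by
  intro c hc k
  have h : eb k ≤ ec c (ball c k).reverse := by
    induction k with
    | zero => exact Nat.zero_le _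
    | succ k ih => exact (edg_layer hc k ih).2
  exact ⟨h, (edg_layer hc k h).1⟩

theorem edg (_ : S_Tree) (_ : S_Chn) (_ : S_Par) : S_Edg := edg'

end Pool.Agent.Q47.HY
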